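import Pool.Agent.J6H55.SB.Iso

/-!
# Special and Brody-special varieties: main theorem
-/

set_option autoImplicit false

namespace Pool.Agent.J6H55.SB

open Polynomial FF
open Pool.Agent.W602.GT (IsForm val coords GeneralType Special BogSheaf BrodySpecial)
open Pool.Agent.TH466.QG (SubOf)
open Pool.Agent.Q103.EC (prePer Isotrivial HypOff)
open Pool.Agent.Q103.VR (DefinedOver definedOver_bot)
open Pool.Agent.J6H55.JM
open Pool.Agent.J6H55.MF

/-- `joint_main` over the complex numbers -/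
theorem joint_cx : ∃ B₀ : ℕ → ℕ, ∀ (K : Type) [Field K] [Algebra ℂ K] (M : ℕ)
    (x : Fin (M + 1) → K), x ≠ 0 → coords ℂ x = ⊤ →
    ∀ (J : Type) [Fintype J] (d : J → ℕ) (p q : J → K[X]), (∀ j, 2 ≤ d j) →
    (∀ j, IsCoprime (p j) (q j)) → (∀ j, max (p j).natDegree (q j).natDegree = d j) →
    (∀ j, (B₀ (d j) : ℕ∞) ≤ (prePer (d j) (p j) (q j)).encard) →
    ∃ E : IntermediateField ℂ K, JointModuli d p q E ∧
      (∀ v : ℕ, 1 ≤ v → Algebra.trdeg ℂ E = v → GeneralType ℂ E v) ∧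
      (∃ (N e : ℕ) (y : Fin (N + 1) → E) (g : Fin (N + 1) → MvPolynomial (Fin (M + 1)) ℂ) (τ : K),
        IsModel x e y g τ) ∧
      ∀ (N e : ℕ) (y : Fin (N + 1) → E) (g : Fin (N + 1) → MvPolynomial (Fin (M + 1)) ℂ) (τ : K),
        IsModel x e y g τ → (∃ S, HypOff (fun i => (y i : K)) S) ∧ ∃ R, RelOff x g R := by
  obtain ⟨B, hB⟩ := joint_main
  refine ⟨B, ?_⟩
  intro K _ _ M x hx hgen J _ d p q hd hco hmax hmany
  obtain ⟨E, hE, hgt, h⟩ := hB ℂ K M x hx hgen J d p q hd hco hmax hmany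
  have hess := ess_sub hx hgen E
  refine ⟨E, hE, hgt, ?_, ?_⟩
  · obtain ⟨N, e, y, g, τ, h1, h2, h3, h4, h5⟩ := exists_model hx hgen E
    exact ⟨N, e, y, g, τ, h1, h2, h3, h4, h5⟩
  · intro N e y g τ hy
    obtain ⟨S, R, hS, hR⟩ := h N e y g τ hy.ne hy.gen hy.hom hy.ne' hy.val K
    refine ⟨⟨S, hS⟩, R, ?_⟩
    have h1 : (fun i => MvPolynomial.map (algebraMap ℂ ℂ) (g i)) = g := by
      funext i
      rw [Algebra.algebraMap_self, MvPolynomial.map_id]
    rw [h1] at hR
    exact hR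

section

variable {K : Type} [Field K] [Algebra ℂ K] {M : ℕ} {x : Fin (M + 1) → K}

theorem alg_of_bot {E : IntermediateField ℂ K} {N e : ℕ} {y : Fin (N + 1) → E}
    {g : Fin (N + 1) → MvPolynomial (Fin (M + 1)) ℂ} {τ : K} (hy : IsModel x e y g τ)
    (h : coords ℂ (fun i => val x (g i)) = ⊥) : Algebra.IsAlgebraic ℂ E := by
  have h1 : coords ℂ y = ⊥ := by
    refine coords_bot fun i j hj => ?_
    have hj' : (y j : K) ≠ 0 := fun h0 => hj (Subtype.ext h0)
    have hgj : val x (g j) ≠ 0 := by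
      rw [hy.val]
      exact mul_ne_zero hy.ne' hj'
    have h2 : val x (g i) / val x (g j) ∈ coords ℂ (fun i => val x (g i)) :=
      IntermediateField.subset_adjoin ℂ _ ⟨i, j, hgj, rfl⟩
    rw [h, IntermediateField.mem_bot] at h2
    obtain ⟨c, hc⟩ := h2
    refine ⟨c, Subtype.ext ?_⟩
    rw [hy.val, hy.val, mul_div_mul_left _ _ hy.ne'] at hc
    have h3 : (y i : K) = algebraMap ℂ K c * (y j : K) := by
      rw [hc, div_mul_cancel₀ _ hj']
    exact h3
  refine ⟨fun c => ?_⟩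
  have h2 : c ∈ coords ℂ y := by
    rw [hy.gen]
    exact IntermediateField.mem_top
  rw [h1, IntermediateField.mem_bot] at h2
  obtain ⟨a, rfl⟩ := h2
  exact isAlgebraic_algebraMap a

theorem subOf_self (hx : x ≠ 0) (hgen : coords ℂ x = ⊤) : SubOf ℂ x x := ⟨hx, hgen, fun _ _ h => h⟩

theorem special_zero {F : Type} [Field F] [Algebra ℂ F] (h : Algebra.trdeg ℂ F = (0 : ℕ)) :
    Special ℂ F 0 (fun _ => False) := by
  rintro p hp ⟨θ, hθ, N, hN, f, -, -, -, hf⟩
  have h1 := hf.cardinalMk_le_trdeg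
  rw [h] at h1
  have h2 : p = 0 := by simpa using h1
  omega

theorem brody_zero {F : Type} [Field F] [Algebra ℂ F] {z : Fin (M + 1) → F} (hz : z ≠ 0)
    (h : Algebra.trdeg ℂ F = (0 : ℕ)) : BrodySpecial (∅ : Set (Fin (M + 1))) z := by
  rw [Nat.cast_zero, trdeg_eq_zero_iff] at h
  have hint : Algebra.IsIntegral ℂ F := Algebra.isAlgebraic_iff_isIntegral.1 h
  have hsur := (IsAlgClosed.algebraMap_bijective_of_isIntegral (k := ℂ) (K := F)).2
  choose a ha using fun i => hsur (z i)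
  have hval : ∀ G : MvPolynomial (Fin (M + 1)) ℂ, val z G = algebraMap ℂ F (val a G) := by
    intro G
    unfold Pool.Agent.W602.GT.val
    have h1 : z = fun i => algebraMap ℂ F (a i) := funext fun i => (ha i).symm
    rw [h1]
    exact MvPolynomial.aeval_algebraMap_apply F a G
  refine ⟨fun _ => a, differentiable_const _, fun _ => ⟨⟨?_, fun G _ hG => ?_⟩,
    fun j hj => absurd hj (Set.notMem_empty j)⟩, fun G _ hG => ?_⟩
  · intro h0
    have h0' : a = 0 := h0
    apply hz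
    funext i
    rw [← ha, h0', Pi.zero_apply, map_zero, Pi.zero_apply]
  · rw [hval] at hG
    exact (map_eq_zero _).1 hG
  · rw [hval, hG 0, map_zero]

end

/-- **Special and Brody-special varieties.** -/
theorem special_main : ∃ B₀ : ℕ → ℕ, ∀ (K : Type) [Field K] [Algebra ℂ K] (M : ℕ)
    (x : Fin (M + 1) → K), x ≠ 0 → coords ℂ x = ⊤ →
    ∀ (J : Type) [Fintype J] (d : J → ℕ) (p q : J → K[X]), (∀ j, 2 ≤ d j) →
    (∀ j, IsCoprime (p j) (q j)) → (∀ j, max (p j).natDegree (q j).natDegree = d j) →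
    (∀ j, (B₀ (d j) : ℕ∞) ≤ (prePer (d j) (p j) (q j)).encard) →
    (∀ w : ℕ, Algebra.trdeg ℂ K = w →
      (Special ℂ K w (fun _ => False) ∨ BrodySpecial (∅ : Set (Fin (M + 1))) x) →
      ∀ j, Isotrivial ℂ (d j) (p j) (q j)) ∧
    ∃ E : IntermediateField ℂ K, JointModuli d p q E ∧
      (∀ (F : IntermediateField ℂ K) (w : ℕ), Algebra.trdeg F K = w →
        Special F K w (fun _ => False) → ∀ y : K, y ∈ E → IsAlgebraic F y) ∧
      (∃ (N e : ℕ) (y : Fin (N + 1) → E) (g : Fin (N + 1) → MvPolynomial (Fin (M + 1)) ℂ) (τ : K),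
        IsModel x e y g τ) ∧
      (∀ (N e : ℕ) (y : Fin (N + 1) → E) (g : Fin (N + 1) → MvPolynomial (Fin (M + 1)) ℂ) (τ : K),
        IsModel x e y g τ → ∃ R : MvPolynomial (Fin (M + 1)) ℂ, IsForm R ∧ val x R ≠ 0 ∧
          ∀ (F : Type) [Field F] [Algebra ℂ F] (w : ℕ) (z : Fin (M + 1) → F), SubOf ℂ x z →
            val z R ≠ 0 → Algebra.trdeg ℂ F = w →
            (Special ℂ F w (fun _ => False) ∨ BrodySpecial (∅ : Set (Fin (M + 1))) z) →
            (∃ i, val z (g i) ≠ 0) ∧ coords ℂ (fun i => val z (g i)) = ⊥) ∧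
      (Algebra.IsAlgebraic E K → ∃ R : MvPolynomial (Fin (M + 1)) ℂ, IsForm R ∧ val x R ≠ 0 ∧
        ∀ (F : Type) [Field F] [Algebra ℂ F] (w : ℕ) (z : Fin (M + 1) → F), SubOf ℂ x z →
          val z R ≠ 0 → Algebra.trdeg ℂ F = w →
          [Special ℂ F w (fun _ => False), BrodySpecial (∅ : Set (Fin (M + 1))) z, w = 0].TFAE) := by
  classical
  obtain ⟨B1, hB1⟩ := joint_cx
  obtain ⟨B2, hB2⟩ := joint_gt
  refine ⟨fun d => max (B1 d) (B2 d), ?_⟩
  intro K _ _ M x hx hgen J _ d p q hd hco hmax hmany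
  have : CharZero K := charZero_of_injective_algebraMap (algebraMap ℂ K).injective
  have hm1 : ∀ j, (B1 (d j) : ℕ∞) ≤ (prePer (d j) (p j) (q j)).encard := fun j =>
    le_trans (by exact_mod_cast le_max_left _ _) (hmany j)
  have hm2 : ∀ j, (B2 (d j) : ℕ∞) ≤ (prePer (d j) (p j) (q j)).encard := fun j =>
    le_trans (by exact_mod_cast le_max_right _ _) (hmany j)
  obtain ⟨E, hE, hgt, hmodel, hall⟩ := hB1 K M x hx hgen J d p q hd hco hmax hm1
  have hself := subOf_self hx hgen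
  have hfib : ∀ (N e : ℕ) (y : Fin (N + 1) → E) (g : Fin (N + 1) → MvPolynomial (Fin (M + 1)) ℂ)
      (τ : K), IsModel x e y g τ → ∃ R : MvPolynomial (Fin (M + 1)) ℂ, IsForm R ∧ val x R ≠ 0 ∧
        ∀ (F : Type) [Field F] [Algebra ℂ F] (w : ℕ) (z : Fin (M + 1) → F), SubOf ℂ x z →
          val z R ≠ 0 → Algebra.trdeg ℂ F = w →
          (Special ℂ F w (fun _ => False) ∨ BrodySpecial (∅ : Set (Fin (M + 1))) z) →
          (∃ i, val z (g i) ≠ 0) ∧ coords ℂ (fun i => val z (g i)) = ⊥ := by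
    intro N e y g τ hy
    obtain ⟨-, R, hR⟩ := hall N e y g τ hy
    exact ⟨R, hR.form, hR.ne, fun F _ _ w z hz hzR hw hs =>
      ⟨hR.dom F z hz.spec hzR, RelOff.special hy.hom hR hz hzR hw hs⟩⟩
  refine ⟨fun w hw hs j => ?_, E, hE, fun F w hw hs y hy => ?_, hmodel, hfib, fun halg => ?_⟩
  · obtain ⟨N, e, y, g, τ, hy⟩ := hmodel
    obtain ⟨R, -, hRx, h⟩ := hfib N e y g τ hy
    obtain ⟨-, h1⟩ := h K w x hself hRx hw hs
    exact isotrivial_of_alg (alg_of_bot hy h1) (hE.defined j)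
  · have hgenF := coords_top_up hgen F
    obtain ⟨E', hE', hgt'⟩ := hB2 F K M x hx hgenF J d p q hd hco hmax hm2
    have halg := alg_of_special hx hgenF hw E' hgt' hs
    exact hE.least F (fun j => definedOver_of_alg halg (hE'.defined j)) y hy
  · have hEtop : E = ⊤ := by
      rw [eq_top_iff]
      intro y _
      exact hE.closed y (halg.isAlgebraic y)
    obtain ⟨y, hyx, hy⟩ := model_top hx hgen hEtop
    obtain ⟨R, hRf, hRx, h⟩ := hfib M 1 y MvPolynomial.X 1 hy
    refine ⟨R, hRf, hRx, fun F _ _ w z hz hzR hw => ?_⟩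
    have key : (Special ℂ F w (fun _ => False) ∨ BrodySpecial (∅ : Set (Fin (M + 1))) z) → w = 0 := by
      intro hs
      obtain ⟨-, h1⟩ := h F w z hz hzR hw hs
      have h2 : (fun i => val z (MvPolynomial.X i : MvPolynomial (Fin (M + 1)) ℂ)) = z := by
        funext i
        unfold Pool.Agent.W602.GT.val
        rw [MvPolynomial.aeval_X]
      rw [h2, hz.gen] at h1
      have h3 : Algebra.trdeg ℂ F = 0 := by
        rw [trdeg_eq_zero_iff]
        refine ⟨fun c => ?_⟩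
        have h4 : c ∈ (⊥ : IntermediateField ℂ F) := by
          rw [← h1]
          exact IntermediateField.mem_top
        obtain ⟨a, rfl⟩ := IntermediateField.mem_bot.1 h4
        exact isAlgebraic_algebraMap a
      rw [h3] at hw
      exact_mod_cast hw.symm
    tfae_have 1 → 3 := fun hs => key (Or.inl hs)
    tfae_have 2 → 3 := fun hs => key (Or.inr hs)
    tfae_have 3 → 1 := by
      intro h0
      subst h0
      exact special_zero hw
    tfae_have 3 → 2 := by
      intro h0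
      subst h0
      exact brody_zero hz.ne hw
    tfae_finish

end Pool.Agent.J6H55.SB
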