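import Pool.Agent.J6H55.MF.Stm
import Pool.Agent.Y216.SV.Bog
import Pool.Agent.W602.GT.BroDefs

/-!
# Special and Brody-special varieties: all maps with many preperiodic points are isotrivial
-/

set_option autoImplicit false

namespace Pool.Agent.J6H55.SB

open Polynomial FF
open Pool.Agent.W602.GT (IsForm val coords GeneralType Special BogSheaf BrodySpecial)
open Pool.Agent.TH466.QG (SubOf)
open Pool.Agent.Y221.BD (EntireCurve)
open Pool.Agent.Q103.EC (prePer Isotrivial)
open Pool.Agent.Q103.VR (DefinedOver definedOver_bot)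
open Pool.Agent.J6H55.JM
open Pool.Agent.J6H55.MF

/-- the joint moduli fibration, over any field of characteristic zero -/
theorem joint_gt : ∃ B₀ : ℕ → ℕ, ∀ (k : Type) [Field k] [CharZero k] (K : Type)
    [Field K] [Algebra k K] (M : ℕ) (x : Fin (M + 1) → K), x ≠ 0 → coords k x = ⊤ →
    ∀ (J : Type) [Fintype J] (d : J → ℕ) (p q : J → K[X]), (∀ j, 2 ≤ d j) →
    (∀ j, IsCoprime (p j) (q j)) → (∀ j, max (p j).natDegree (q j).natDegree = d j) →
    (∀ j, (B₀ (d j) : ℕ∞) ≤ (prePer (d j) (p j) (q j)).encard) →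
    ∃ E : IntermediateField k K, JointModuli d p q E ∧
      (∀ v : ℕ, 1 ≤ v → Algebra.trdeg k E = v → GeneralType k E v) := by
  classical
  obtain ⟨B1, hB1⟩ := gt_joint'
  refine ⟨fun d => max (3 * d + 7) (B1 d), ?_⟩
  intro k _ _ K _ _ M x hx hgen J _ d p q hd hco hmax hmany
  obtain ⟨E, E₁, hE, hle, hE₁, halg, hdat⟩ := exists_joint (k := k) hd
    (n := fun j => max (3 * d j + 7) (B1 (d j))) (fun j => le_max_left _ _)
    hco hmax hmany (gens_sub hx hgen)
  choose p' q' P' hdat' hcard using hdat
  exact ⟨E, hE, fun v hv htr => hB1 k K E v hv htr J d E₁ p' q' P' hd hdat'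
    (fun j => (le_max_right _ _).trans (hcard j)) hle halg⟩

section

variable {k K : Type} [Field k] [Field K] [Algebra k K]

/-- a special variety does not dominate a variety of general type -/
theorem not_special_of_gt [CharZero k] {M : ℕ} {x : Fin (M + 1) → K} (hx : x ≠ 0)
    (hgen : coords k x = ⊤) {w : ℕ} (hw : Algebra.trdeg k K = w) (E : IntermediateField k K)
    {v : ℕ} (hv : 1 ≤ v) (hE : GeneralType k E v) : ¬ Special k K w (fun _ => False) := by
  intro hs
  obtain ⟨m, u, hu⟩ := gens_sub hx hgen E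
  exact hs v hv (Pool.Agent.Y216.SV.bog_of_sub E hw (Set.finite_range u) hu hE _)

/-- a subfield without varieties of general type is algebraic -/
theorem alg_of_special [CharZero k] {M : ℕ} {x : Fin (M + 1) → K} (hx : x ≠ 0)
    (hgen : coords k x = ⊤) {w : ℕ} (hw : Algebra.trdeg k K = w) (E : IntermediateField k K)
    (hE : ∀ v : ℕ, 1 ≤ v → Algebra.trdeg k E = v → GeneralType k E v)
    (hs : Special k K w (fun _ => False)) : Algebra.IsAlgebraic k E := by
  obtain ⟨v, -, hv⟩ := Pool.Agent.Q103.VR.exists_dim E hw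
  rcases Nat.eq_zero_or_pos v with h0 | h0
  · rw [h0, Nat.cast_zero, trdeg_eq_zero_iff] at hv
    exact hv
  · exact absurd hs (not_special_of_gt hx hgen hw E h0 (hE v h0 hv))

theorem definedOver_of_alg {d : ℕ} {p q : K[X]} {F : IntermediateField k K}
    {E : IntermediateField F K} (halg : Algebra.IsAlgebraic F E) (h : DefinedOver d p q E) :
    DefinedOver d p q F := by
  obtain ⟨p', q', a, b, c, e, h1, h2, h3, h4, h5⟩ := h
  have key : ∀ y : AlgebraicClosure K, IsAlgebraic E y → IsAlgebraic F y := by
    intro y hy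
    exact hy.restrictScalars F
  exact ⟨p', q', a, b, c, e, h1, h2, h3, fun i => ⟨key _ (h4 i).1, key _ (h4 i).2⟩, h5⟩

theorem isotrivial_of_alg {d : ℕ} {p q : K[X]}
    {E : IntermediateField k K} (halg : Algebra.IsAlgebraic k E) (h : DefinedOver d p q E) :
    Isotrivial k d p q := by
  obtain ⟨p', q', a, b, c, e, h1, h2, h3, h4, h5⟩ := h
  exact ⟨p', q', a, b, c, e, h1, h2, h3,
    fun i => ⟨(h4 i).1.restrictScalars k, (h4 i).2.restrictScalars k⟩, h5⟩

end

/-- the coordinates of a point as a point over the field of another base -/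
theorem coords_top_up {k K : Type} [Field k] [Field K] [Algebra k K] {M : ℕ} {x : Fin (M + 1) → K}
    (hgen : coords k x = ⊤) (F : IntermediateField k K) : coords F x = ⊤ := by
  rw [eq_top_iff]
  intro y _
  have h1 : coords k x ≤ (coords F x).restrictScalars k := by
    unfold coords
    rw [IntermediateField.adjoin_le_iff]
    intro z hz
    exact IntermediateField.subset_adjoin F _ hz
  exact h1 (by rw [hgen]; exact IntermediateField.mem_top)

/-- the ratios of the coordinates are constants -/
theorem coords_bot {k L : Type} [Field k] [Field L] [Algebra k L] {N : ℕ} {y : Fin (N + 1) → L}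
    (h : ∀ i j, y j ≠ 0 → ∃ c : k, y i = algebraMap k L c * y j) : coords k y = ⊥ := by
  rw [eq_bot_iff]
  unfold coords
  rw [IntermediateField.adjoin_le_iff]
  rintro _ ⟨i, j, hj, rfl⟩
  obtain ⟨c, hc⟩ := h i j hj
  rw [hc, mul_div_assoc, div_self hj, mul_one]
  exact (⊥ : IntermediateField k L).algebraMap_mem c

theorem coords_bot_of_alg {L : Type} [Field L] [Algebra ℂ L] {N : ℕ} {y : Fin (N + 1) → L}
    (h : Algebra.IsAlgebraic ℂ (coords ℂ y)) : coords ℂ y = ⊥ := by
  rw [eq_bot_iff]
  intro z hz
  have hint : Algebra.IsIntegral ℂ (coords ℂ y) := Algebra.isAlgebraic_iff_isIntegral.1 h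
  obtain ⟨c, hc⟩ := (IsAlgClosed.algebraMap_bijective_of_isIntegral (k := ℂ)
    (K := coords ℂ y)).2 ⟨z, hz⟩
  rw [IntermediateField.mem_bot]
  exact ⟨c, congrArg Subtype.val hc⟩

/-- Zariski dense entire curves, as entire curves without common zeros -/
theorem entire_of_dense {L : Type} [Field L] [Algebra ℂ L] {M : ℕ} {x : Fin (M + 1) → L}
    {F : Type} [Field F] [Algebra ℂ F] {z : Fin (M + 1) → F}
    (hz : ∀ G : MvPolynomial (Fin (M + 1)) ℂ, IsForm G → val x G = 0 → val z G = 0)
    {f : ℂ → Fin (M + 1) → ℂ} (hf : Differentiable ℂ f)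
    (hmem : ∀ t, f t ∈ Pool.Agent.W602.GT.PtsU (∅ : Set (Fin (M + 1))) ℂ z)
    (hdense : ∀ G : MvPolynomial (Fin (M + 1)) ℂ, IsForm G → (∀ t, val (f t) G = 0) → val z G = 0)
    (hc : coords ℂ z ≠ ⊥) : EntireCurve x (fun i t => f t i) := by
  refine ⟨fun i => (differentiable_pi.1 hf) i, fun t => ?_, fun G hG hxG t => ?_, ?_⟩
  · by_contra hcon
    push Not at hcon
    exact (hmem t).1.1 (funext hcon)
  · have h1 := (hmem t).1.2 G hG (hz G hG hxG)
    have h2 : val (f t) G = MvPolynomial.eval (fun i => f t i) G := rfl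
    rw [← h2]
    exact h1
  · by_contra hcon
    push Not at hcon
    apply hc
    obtain ⟨k0, hk0⟩ := Function.ne_iff.1 (hmem 0).1.1
    have hk0' : f 0 k0 ≠ 0 := hk0
    -- linear forms
    have hlin : ∀ i, f 0 k0 • z i = f 0 i • z k0 := by
      intro i
      have h1 := hdense (MvPolynomial.C (f 0 k0) * MvPolynomial.X i -
        MvPolynomial.C (f 0 i) * MvPolynomial.X k0) ⟨1, by
          refine MvPolynomial.IsHomogeneous.sub ?_ ?_
          · simpa using (MvPolynomial.isHomogeneous_C (Fin (M + 1)) (f 0 k0)).mul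
              (MvPolynomial.isHomogeneous_X ℂ i)
          · simpa using (MvPolynomial.isHomogeneous_C (Fin (M + 1)) (f 0 i)).mul
              (MvPolynomial.isHomogeneous_X ℂ k0)⟩ (fun t => by
        unfold Pool.Agent.W602.GT.val
        rw [map_sub, map_mul, map_mul, MvPolynomial.aeval_C, MvPolynomial.aeval_C,
          MvPolynomial.aeval_X, MvPolynomial.aeval_X]
        have h2 := hcon k0 i 0 t
        simp only [Algebra.algebraMap_self, RingHom.id_apply]
        linear_combination h2)
      unfold Pool.Agent.W602.GT.val at h1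
      rw [map_sub, map_mul, map_mul, MvPolynomial.aeval_C, MvPolynomial.aeval_C,
        MvPolynomial.aeval_X, MvPolynomial.aeval_X, sub_eq_zero] at h1
      rw [Algebra.smul_def, Algebra.smul_def]
      exact h1
    have hzk : ∀ i, z i = (f 0 i / f 0 k0) • z k0 := by
      intro i
      have h1 : (f 0 k0)⁻¹ • (f 0 k0 • z i) = (f 0 k0)⁻¹ • (f 0 i • z k0) := by rw [hlin]
      rw [smul_smul, smul_smul, inv_mul_cancel₀ hk0', one_smul] at h1
      rw [h1, div_eq_inv_mul]
    refine coords_bot fun i j hj => ?_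
    have hj0 : f 0 j ≠ 0 := by
      intro h0
      apply hj
      rw [hzk j, h0, zero_div, zero_smul]
    refine ⟨f 0 i / f 0 j, ?_⟩
    rw [hzk i, hzk j, ← Algebra.smul_def, smul_smul]
    congr 1
    field_simp

/-- **Special or Brody-special closed subvarieties lie in the fibres.** -/
theorem RelOff.special {L : Type} [Field L] [Algebra ℂ L] {M N : ℕ} {x : Fin (M + 1) → L}
    {g : Fin (N + 1) → MvPolynomial (Fin (M + 1)) ℂ} {e : ℕ} (hg : ∀ i, (g i).IsHomogeneous e)
    {R : MvPolynomial (Fin (M + 1)) ℂ} (h : RelOff x g R) {F : Type} [Field F] [Algebra ℂ F]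
    {w : ℕ} {z : Fin (M + 1) → F} (hz : SubOf ℂ x z) (hR : val z R ≠ 0)
    (hw : Algebra.trdeg ℂ F = w)
    (hs : Special ℂ F w (fun _ => False) ∨ BrodySpecial (∅ : Set (Fin (M + 1))) z) :
    coords ℂ (fun i => val z (g i)) = ⊥ := by
  have : CharZero F := charZero_of_injective_algebraMap (algebraMap ℂ F).injective
  rcases hs with hs | ⟨f, hf, hmem, hdense⟩
  · exact coords_bot_of_alg (alg_of_special hz.ne hz.gen hw _
      (fun v hv htr => h.sub F v z hz hR hv htr) hs)
  · by_cases hc : coords ℂ z = ⊥
    · -- a point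
      apply coords_bot_of_alg
      have h1 : Algebra.IsAlgebraic ℂ F := by
        refine ⟨fun y => ?_⟩
        have h2 : y ∈ (⊥ : IntermediateField ℂ F) := by
          rw [← hc, hz.gen]
          exact IntermediateField.mem_top
        obtain ⟨c, hc⟩ := IntermediateField.mem_bot.1 h2
        rw [← hc]
        exact isAlgebraic_algebraMap c
      refine ⟨fun y => ?_⟩
      have h2 := h1.isAlgebraic (y : F)
      exact (isAlgebraic_algebraMap_iff (algebraMap (coords ℂ fun i => val z (g i)) F).injective).1 h2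
    have hent := entire_of_dense hz.spec hf hmem hdense hc
    have hRf : ∃ t, MvPolynomial.eval (fun i => f t i) R ≠ 0 := by
      by_contra hcon
      push Not at hcon
      exact hR (hdense R h.form hcon)
    have hcur := h.curve _ hent hRf
    refine coords_bot fun i j hj => ?_
    -- a point of the curve where `g j` does not vanish
    obtain ⟨t, ht⟩ : ∃ t, MvPolynomial.eval (fun l => f t l) (g j) ≠ 0 := by
      by_contra hcon
      push Not at hcon
      exact hj (hdense (g j) ⟨e, hg j⟩ hcon)
    refine ⟨MvPolynomial.eval (fun l => f t l) (g i) / MvPolynomial.eval (fun l => f t l) (g j), ?_⟩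
    set a := MvPolynomial.eval (fun l => f t l) (g i) with ha
    set b := MvPolynomial.eval (fun l => f t l) (g j) with hb
    have h1 := hdense (MvPolynomial.C b * g i - MvPolynomial.C a * g j) ⟨e, by
        refine MvPolynomial.IsHomogeneous.sub ?_ ?_
        · simpa using (MvPolynomial.isHomogeneous_C (Fin (M + 1)) b).mul (hg i)
        · simpa using (MvPolynomial.isHomogeneous_C (Fin (M + 1)) a).mul (hg j)⟩ (fun s => by
      show MvPolynomial.eval (fun l => f s l) _ = 0
      rw [map_sub, map_mul, map_mul, MvPolynomial.eval_C, MvPolynomial.eval_C]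
      have h2 := hcur i j s t
      linear_combination h2)
    have h3 : algebraMap ℂ F b * val z (g i) - algebraMap ℂ F a * val z (g j) = 0 := by
      rw [← h1]
      unfold Pool.Agent.W602.GT.val
      rw [map_sub, map_mul, map_mul, MvPolynomial.aeval_C, MvPolynomial.aeval_C]
    have hb0 : algebraMap ℂ F b ≠ 0 := (_root_.map_ne_zero _).2 ht
    rw [map_div₀]
    field_simp
    linear_combination h3

end Pool.Agent.J6H55.SB
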